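import Mathlib
import Pool.Agent.W684.MADef

/-!
# Consequences of Martin's axiom for `ℵ₁` dense sets

Every function from a set of at most `ℵ₁` points of a second countable `T₁` space to a second
countable space is the union of countably many continuous functions; and `ℵ₁` nowhere dense sets
do not cover a nonempty open set of a compact space with a countable base.
-/

set_option autoImplicit false

namespace Pool.Agent.Q307.AV

open Cardinal Set TopologicalSpace Pool.Agent.W684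

/-- An enumeration of a countable base. -/
theorem exists_base (X : Type) [TopologicalSpace X] [SecondCountableTopology X] :
    ∃ U : ℕ → Set X, (∀ a, IsOpen (U a)) ∧
      ∀ (x : X) (O : Set X), IsOpen O → x ∈ O → ∃ a, x ∈ U a ∧ U a ⊆ O := by
  obtain ⟨B, hB1, -, hB2⟩ := exists_countable_basis X
  obtain ⟨U, hU⟩ := (hB1.insert ∅).exists_eq_range (insert_nonempty _ _)
  refine ⟨U, fun a => ?_, fun x O hO hx => ?_⟩
  · have : U a ∈ insert ∅ B := hU ▸ mem_range_self a
    rcases this with h | h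
    · rw [h]; exact isOpen_empty
    · exact hB2.isOpen h
  · obtain ⟨V, hV, hxV, hVO⟩ := hB2.exists_subset_of_mem_open hx hO
    have : V ∈ range U := hU ▸ mem_insert_of_mem _ hV
    obtain ⟨a, rfl⟩ := this
    exact ⟨a, hxV, hVO⟩

section Cont

variable {ι X Y : Type}

/-- Conditions: a finite set of triples `(a, m, j)`, read as: `x ∈ U a` implies `y ∈ V j` (the number
`m` is used to have infinitely many copies), and a finite set of indices. -/
structure Cnd (U : ℕ → Set X) (V : ℕ → Set Y) (x : ι → X) (y : ι → Y) : Type where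
  /-- triples -/
  E : Finset (ℕ × ℕ × ℕ)
  /-- indices -/
  F : Finset ι

variable {U : ℕ → Set X} {V : ℕ → Set Y} {x : ι → X} {y : ι → Y}

instance : Preorder (Cnd U V x y) where
  le q p := p.E ⊆ q.E ∧ p.F ⊆ q.F ∧
    ∀ e ∈ q.E, e ∉ p.E → ∀ i ∈ p.F, x i ∈ U e.1 → y i ∈ V e.2.2
  le_refl p := ⟨Finset.Subset.refl _, Finset.Subset.refl _, fun e h h' => absurd h h'⟩
  le_trans r q p h1 h2 := by
    refine ⟨h2.1.trans h1.1, h2.2.1.trans h1.2.1, fun e he hep i hi hx => ?_⟩
    by_cases heq : e ∈ q.E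
    · exact h2.2.2 e heq hep i hi hx
    · exact h1.2.2 e he heq i (h2.2.1 hi) hx

theorem Cnd.ccc : IsCCC (Cnd U V x y) := by
  classical
  intro A hA
  refine countable_of_injective_of_countable_image (f := Cnd.E) ?_ (Set.to_countable _)
  intro p hp q hq hpq
  by_contra hne
  refine hA p hp q hq hne ⟨⟨p.E, p.F ∪ q.F⟩, ?_, ?_⟩
  · exact ⟨Finset.Subset.refl _, Finset.subset_union_left, fun e h h' => absurd h h'⟩
  · exact ⟨by rw [← hpq], Finset.subset_union_right, fun e h h' => absurd h (by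
      rw [hpq]; exact h')⟩

/-- Under Martin's axiom every function on a set of size `ℵ₁` is `σ`-continuous. -/
theorem sigma_continuous (hMA : MartinAxiomAleph1) [TopologicalSpace X]
    [SecondCountableTopology X] [T1Space X] [TopologicalSpace Y] [SecondCountableTopology Y]
    (hι : #ι ≤ ℵ₁) (x : ι → X) (hx : Function.Injective x) (y : ι → Y) :
    ∃ c : ι → ℕ, ∀ i, ∀ W : Set Y, IsOpen W → y i ∈ W →
      ∃ O : Set X, IsOpen O ∧ x i ∈ O ∧ ∀ j, c j = c i → x j ∈ O → y j ∈ W := by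
  classical
  obtain ⟨U, hU1, hU2⟩ := exists_base X
  obtain ⟨V, hV1, hV2⟩ := exists_base Y
  let D : ι × ℕ × Finset (ℕ × ℕ × ℕ) → Set (Cnd U V x y) := fun t =>
    {p | t.1 ∈ p.F ∧ (y t.1 ∈ V t.2.1 → ∃ e ∈ p.E, e ∉ t.2.2 ∧ x t.1 ∈ U e.1 ∧ e.2.2 = t.2.1)}
  have hD : ∀ t, ∀ p : Cnd U V x y, ∃ q ∈ D t, q ≤ p := by
    rintro ⟨i, j, E0⟩ p
    by_cases hy : y i ∈ V j
    · -- a basic open set which contains `x i` but no other point of the condition
      let T : Set X := x '' {k | k ∈ p.F ∧ k ≠ i}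
      have hTfin : T.Finite := (p.F.finite_toSet.subset fun k hk => hk.1).image x
      have hxi : x i ∈ Tᶜ := by
        rintro ⟨k, ⟨_, hk⟩, hk'⟩
        exact hk (hx hk')
      obtain ⟨a, ha, haT⟩ := hU2 (x i) Tᶜ hTfin.isClosed.isOpen_compl hxi
      obtain ⟨m, hm⟩ : ∃ m, (a, m, j) ∉ E0 := by
        by_contra hcon
        push Not at hcon
        have hinj : Function.Injective fun m : ℕ => (a, m, j) := fun m n h => by
          simpa using h
        have hsub : range (fun m : ℕ => (a, m, j)) ⊆ (E0 : Set (ℕ × ℕ × ℕ)) := by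
          rintro _ ⟨m, rfl⟩
          exact hcon m
        exact (infinite_range_of_injective hinj) (E0.finite_toSet.subset hsub)
      refine ⟨⟨insert (a, m, j) p.E, insert i p.F⟩, ⟨Finset.mem_insert_self _ _, fun _ =>
        ⟨(a, m, j), Finset.mem_insert_self _ _, hm, ha, rfl⟩⟩, Finset.subset_insert _ _,
        Finset.subset_insert _ _, ?_⟩
      intro e he hep k hk hxk
      rcases Finset.mem_insert.mp he with rfl | he
      · by_cases hki : k = i
        · rw [hki]; exact hy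
        · exact absurd ⟨k, ⟨hk, hki⟩, rfl⟩ (haT hxk)
      · exact absurd he hep
    · refine ⟨⟨p.E, insert i p.F⟩, ⟨Finset.mem_insert_self _ _, fun h => absurd h hy⟩,
        Finset.Subset.refl _, Finset.subset_insert _ _, fun e h h' => absurd h h'⟩
  have hcard : #(range D) ≤ ℵ₁ := by
    refine mk_range_le.trans ?_
    rw [mk_prod]
    simp only [lift_id]
    have h2 : #(ℕ × Finset (ℕ × ℕ × ℕ)) ≤ ℵ₁ := mk_le_aleph0.trans (aleph0_le_aleph 1)
    calc #ι * #(ℕ × Finset (ℕ × ℕ × ℕ)) ≤ ℵ₁ * ℵ₁ := mul_le_mul' hι h2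
      _ = ℵ₁ := mul_eq_self (aleph0_le_aleph 1)
  haveI : Nonempty (Cnd U V x y) := ⟨⟨∅, ∅⟩⟩
  obtain ⟨G, -, -, hdir, hG⟩ := hMA (Cnd U V x y) Cnd.ccc (range D) hcard (by
    rintro _ ⟨t, rfl⟩ p
    exact hD t p)
  have hmem : ∀ i, ∃ p ∈ G, i ∈ p.F := fun i => by
    obtain ⟨p, hp, hpD⟩ := hG _ ⟨(i, 0, ∅), rfl⟩
    exact ⟨p, hp, hpD.1⟩
  choose P hP1 hP2 using hmem
  have hprom : ∀ i, ∀ p ∈ G, ∀ e ∈ p.E, e ∉ (P i).E → x i ∈ U e.1 → y i ∈ V e.2.2 := by
    intro i p hp e he hne hxi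
    obtain ⟨r, -, hr1, hr2⟩ := hdir (P i) (hP1 i) p hp
    exact hr1.2.2 e (hr2.1 he) hne i (hP2 i) hxi
  refine ⟨fun i => Encodable.encode (P i).E, fun i W hW hyW => ?_⟩
  obtain ⟨j, hj, hjW⟩ := hV2 (y i) W hW hyW
  obtain ⟨p, hp, hpD⟩ := hG _ ⟨(i, j, (P i).E), rfl⟩
  obtain ⟨e, he, hne, hxe, hej⟩ := hpD.2 hj
  refine ⟨U e.1, hU1 _, hxe, fun k hk hxk => ?_⟩
  have hPk : (P k).E = (P i).E := Encodable.encode_injective hk
  have := hprom k p hp e he (by rw [hPk]; exact hne) hxk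
  rw [hej] at this
  exact hjW this

end Cont

section Cov

variable {X : Type} [TopologicalSpace X]

/-- nonempty basic open sets whose closure is contained in `O` -/
structure Bs (U : ℕ → Set X) (O : Set X) : Type where
  /-- index -/
  a : ℕ
  ne : (U a).Nonempty
  sub : closure (U a) ⊆ O

instance (U : ℕ → Set X) (O : Set X) : Preorder (Bs U O) where
  le q p := closure (U q.a) ⊆ closure (U p.a)
  le_refl _ := subset_rfl
  le_trans _ _ _ h1 h2 := h1.trans h2

theorem Bs.countable (U : ℕ → Set X) (O : Set X) : Countable (Bs U O) := by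
  refine Function.Injective.countable (f := Bs.a) ?_
  rintro ⟨a, _, _⟩ ⟨b, _, _⟩ h
  simp only at h
  subst h
  rfl

/-- Under Martin's axiom a nonempty open set is not covered by `ℵ₁` nowhere dense sets. -/
theorem not_covered (hMA : MartinAxiomAleph1) [SecondCountableTopology X] [CompactSpace X]
    [RegularSpace X] (𝒩 : Set (Set X)) (hcard : #𝒩 ≤ ℵ₁) (h𝒩 : ∀ N ∈ 𝒩, IsNowhereDense N)
    (O : Set X) (hO : IsOpen O) (hne : O.Nonempty) : ∃ z ∈ O, ∀ N ∈ 𝒩, z ∉ N := by
  classical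
  obtain ⟨U, hU1, hU2⟩ := exists_base X
  have hreg : ∀ (x : X) (O : Set X), IsOpen O → x ∈ O →
      ∃ a, x ∈ U a ∧ closure (U a) ⊆ O := by
    intro x O hO hx
    obtain ⟨C, hC, hCc, hCO⟩ := exists_mem_nhds_isClosed_subset (hO.mem_nhds hx)
    obtain ⟨a, ha, haC⟩ := hU2 x (interior C) isOpen_interior (mem_interior_iff_mem_nhds.mpr hC)
    exact ⟨a, ha, (closure_minimal (haC.trans interior_subset) hCc).trans hCO⟩
  haveI hcount := Bs.countable U O
  have hN0 : Nonempty (Bs U O) := by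
    obtain ⟨x, hx⟩ := hne
    obtain ⟨a, ha, haO⟩ := hreg x O hO hx
    exact ⟨⟨a, ⟨x, ha⟩, haO⟩⟩
  let D : 𝒩 → Set (Bs U O) := fun N => {p | ∀ z ∈ closure (U p.a), z ∉ (N : Set X)}
  obtain ⟨G, hG0, -, hdir, hG⟩ := hMA (Bs U O) (fun A _ => Set.to_countable A) (range D)
    (mk_range_le.trans hcard) (by
      rintro _ ⟨N, rfl⟩ p
      have hnd := h𝒩 N N.2
      have : ∃ z ∈ U p.a, z ∉ closure (N : Set X) := by
        by_contra hcon
        push Not at hcon
        have hsub : U p.a ⊆ interior (closure (N : Set X)) :=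
          interior_maximal hcon (hU1 _)
        rw [hnd] at hsub
        obtain ⟨z, hz⟩ := p.ne
        exact hsub hz
      obtain ⟨z, hz1, hz2⟩ := this
      obtain ⟨b, hb, hbO⟩ := hreg z (U p.a ∩ (closure (N : Set X))ᶜ)
        ((hU1 _).inter isClosed_closure.isOpen_compl) ⟨hz1, hz2⟩
      refine ⟨⟨b, ⟨z, hb⟩, ?_⟩, ?_, ?_⟩
      · exact (hbO.trans inter_subset_left).trans (subset_closure.trans p.sub)
      · intro w hw hwN
        exact (hbO hw).2 (subset_closure hwN)
      · exact (hbO.trans inter_subset_left).trans subset_closure)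
  haveI : Nonempty G := hG0.to_subtype
  obtain ⟨z, hz⟩ := IsCompact.nonempty_iInter_of_directed_nonempty_isCompact_isClosed
    (fun p : G => closure (U (p : Bs U O).a)) (by
      rintro ⟨p, hp⟩ ⟨q, hq⟩
      obtain ⟨r, hr, hr1, hr2⟩ := hdir p hp q hq
      exact ⟨⟨r, hr⟩, hr1, hr2⟩) (fun p => (p : Bs U O).ne.closure)
      (fun p => isClosed_closure.isCompact) (fun p => isClosed_closure)
  rw [mem_iInter] at hz
  obtain ⟨p0, hp0⟩ := hG0
  refine ⟨z, p0.sub (hz ⟨p0, hp0⟩), fun N hN => ?_⟩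
  obtain ⟨p, hp, hpD⟩ := hG _ ⟨⟨N, hN⟩, rfl⟩
  exact hpD z (hz ⟨p, hp⟩)

end Cov

end Pool.Agent.Q307.AV
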