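import Mathlib
import Pool.Agent.Q307.AV.SigmaCont

/-!
# Dense sets which strongly avoid one another
-/

set_option autoImplicit false

namespace Pool.Agent.Q307.AV

open Cardinal Set TopologicalSpace

/-- The Cantor space. -/
abbrev Cantor : Type := ℕ → Bool

theorem mk_cantor : #Cantor = 𝔠 := by simp

/-- Codes for continuous functions into the Cantor space. -/
abbrev Code : Type := ℕ → Set ℕ × Set ℕ

theorem mk_code : #Code = 𝔠 := by simp

theorem nowhereDense_singleton (y : Cantor) : IsNowhereDense ({y} : Set Cantor) := by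
  show interior (closure {y}) = ∅
  rw [closure_singleton]
  by_contra hne
  obtain ⟨w, hw⟩ := nonempty_iff_ne_empty.mpr hne
  have hwy : w = y := mem_singleton_iff.mp (interior_subset hw)
  subst hwy
  have hnh : {w} ∈ nhds w := mem_interior_iff_mem_nhds.mp hw
  have ht : Filter.Tendsto (fun n : ℕ => Function.update w n (!(w n))) Filter.atTop (nhds w) := by
    rw [tendsto_pi_nhds]
    intro k
    refine tendsto_const_nhds.congr' ?_
    filter_upwards [Filter.eventually_gt_atTop k] with n hn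
    rw [Function.update_of_ne (by omega)]
  obtain ⟨n, hn⟩ := (ht.eventually hnh).exists
  have h1 := congrFun (mem_singleton_iff.mp hn) n
  rw [Function.update_self] at h1
  cases h : w n <;> simp [h] at h1

section

variable (U : ℕ → Set Cantor)

/-- the open set coded by a set of natural numbers -/
def opn (S : Set ℕ) : Set Cantor := ⋃ a ∈ S, U a

/-- the domain of the function with code `c` -/
def dom (c : Code) : Set Cantor := {z | ∀ n, z ∈ opn U (c n).1 ↔ z ∉ opn U (c n).2}

open Classical in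
/-- the function with code `c` -/
noncomputable def fn (c : Code) (z : Cantor) : Cantor := fun n => decide (z ∈ opn U (c n).1)

/-- the fibre of the function with code `c` above `y` -/
def fib (c : Code) (y : Cantor) : Set Cantor := {z | z ∈ dom U c ∧ fn U c z = y}

variable {U}

theorem exists_opn (hU1 : ∀ a, IsOpen (U a)) (hU2 : ∀ (x : Cantor) (O : Set Cantor), IsOpen O →
    x ∈ O → ∃ a, x ∈ U a ∧ U a ⊆ O) (O : Set Cantor) (hO : IsOpen O) : ∃ S, opn U S = O := by
  refine ⟨{a | U a ⊆ O}, ?_⟩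
  unfold opn
  apply subset_antisymm
  · exact iUnion₂_subset fun a ha => ha
  · intro x hx
    obtain ⟨a, ha, haO⟩ := hU2 x O hO hx
    exact mem_biUnion (show a ∈ {a | U a ⊆ O} from haO) ha

theorem isOpen_opn (hU1 : ∀ a, IsOpen (U a)) (S : Set ℕ) : IsOpen (opn U S) :=
  isOpen_biUnion fun a _ => hU1 a

/-- every continuous function has a code -/
theorem exists_code (hU1 : ∀ a, IsOpen (U a)) (hU2 : ∀ (x : Cantor) (O : Set Cantor), IsOpen O →
    x ∈ O → ∃ a, x ∈ U a ∧ U a ⊆ O) {Z : Set Cantor} {f : Cantor → Cantor}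
    (hf : ContinuousOn f Z) : ∃ c : Code, ∀ z ∈ Z, z ∈ dom U c ∧ fn U c z = f z := by
  classical
  rw [continuousOn_iff'] at hf
  have h1 : ∀ (n : ℕ) (b : Bool), ∃ S : Set ℕ, (fun z => f z) ⁻¹' {w | w n = b} ∩ Z =
      opn U S ∩ Z := by
    intro n b
    have hop : IsOpen {w : Cantor | w n = b} := by
      have : {w : Cantor | w n = b} = (fun w : Cantor => w n) ⁻¹' {b} := rfl
      rw [this]
      exact (isOpen_discrete {b}).preimage (continuous_apply n)
    obtain ⟨u, hu, hfu⟩ := hf _ hop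
    obtain ⟨S, hS⟩ := exists_opn hU1 hU2 u hu
    exact ⟨S, by rw [hS]; exact hfu⟩
  choose S hS using h1
  refine ⟨fun n => (S n true, S n false), fun z hz => ?_⟩
  have key : ∀ n b, z ∈ opn U (S n b) ↔ f z n = b := by
    intro n b
    have h2 : (z ∈ (fun z => f z) ⁻¹' {w | w n = b} ∩ Z) ↔ z ∈ opn U (S n b) ∩ Z := by
      rw [hS]
    simp only [mem_inter_iff, hz, and_true, mem_preimage, mem_setOf_eq] at h2
    exact h2.symm
  refine ⟨fun n => ?_, ?_⟩
  · show z ∈ opn U (S n true) ↔ z ∉ opn U (S n false)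
    rw [key, key]
    cases f z n <;> simp
  · funext n
    show decide (z ∈ opn U (S n true)) = f z n
    have := key n true
    cases h : f z n with
    | true => exact decide_eq_true (this.mpr h)
    | false =>
      refine decide_eq_false fun hc => ?_
      have h2 := this.mp hc
      rw [h] at h2
      exact absurd h2 (by decide)

/-- all but countably many fibres are nowhere dense -/
theorem countable_big (hU1 : ∀ a, IsOpen (U a)) (hU2 : ∀ (x : Cantor) (O : Set Cantor), IsOpen O →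
    x ∈ O → ∃ a, x ∈ U a ∧ U a ⊆ O) (c : Code) :
    {y | ¬ IsNowhereDense (fib U c y)}.Countable := by
  classical
  have h1 : ∀ y, ¬ IsNowhereDense (fib U c y) →
      ∃ a, (fib U c y ∩ U a).Nonempty ∧ ∀ z ∈ dom U c ∩ U a, fn U c z = y := by
    intro y hy
    have hne : (interior (closure (fib U c y))).Nonempty :=
      nonempty_iff_ne_empty.mpr hy
    obtain ⟨w, hw⟩ := hne
    obtain ⟨a, ha, haO⟩ := hU2 w _ isOpen_interior hw
    have hcl : U a ⊆ closure (fib U c y) := haO.trans interior_subset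
    have hmeet : ∀ O : Set Cantor, IsOpen O → (O ∩ U a).Nonempty →
        (fib U c y ∩ (O ∩ U a)).Nonempty := by
      rintro O hO ⟨x, hx⟩
      have := mem_closure_iff.mp (hcl hx.2) (O ∩ U a) (hO.inter (hU1 a)) hx
      rwa [inter_comm] at this
    refine ⟨a, ?_, ?_⟩
    · have := hmeet univ isOpen_univ ⟨w, trivial, ha⟩
      rwa [univ_inter] at this
    · rintro z ⟨hz, hza⟩
      funext n
      by_cases h : z ∈ opn U (c n).1
      · obtain ⟨z', hz', hz1, -⟩ := hmeet _ (isOpen_opn hU1 _) ⟨z, h, hza⟩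
        have e1 : fn U c z n = true := decide_eq_true h
        have e2 : fn U c z' n = true := decide_eq_true hz1
        rw [e1, ← e2, hz'.2]
      · have h' : z ∈ opn U (c n).2 := by
          by_contra hcon
          exact h ((hz n).mpr hcon)
        obtain ⟨z', hz', hz1, -⟩ := hmeet _ (isOpen_opn hU1 _) ⟨z, h', hza⟩
        have hz1' : z' ∉ opn U (c n).1 := fun hc => (hz'.1 n).mp hc hz1
        have e1 : fn U c z n = false := decide_eq_false h
        have e2 : fn U c z' n = false := decide_eq_false hz1'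
        rw [e1, ← e2, hz'.2]
  choose! a ha1 ha2 using h1
  refine countable_of_injective_of_countable_image (f := a) ?_ (Set.to_countable _)
  intro y hy y' hy' hyy
  obtain ⟨z, hz1, hz2⟩ := ha1 y hy
  have e1 := ha2 y' hy' z ⟨hz1.1, hyy ▸ hz2⟩
  rw [← e1, hz1.2]

end

/-- the index type of the recursion -/
abbrev WW : Type := (𝔠 : Cardinal.{0}).ord.ToType

theorem mk_WW : #WW = 𝔠 := mk_ord_toType _

theorem mk_Iio_WW (w : WW) : #(Iio w) < 𝔠 := mk_Iio_toType_ord_lt w

/-- The recursion. -/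
theorem exists_sequence {U : ℕ → Set Cantor} (hU1 : ∀ a, IsOpen (U a))
    (hcov : ∀ 𝒩 : Set (Set Cantor), #𝒩 < 𝔠 → (∀ N ∈ 𝒩, IsNowhereDense N) →
      ∀ O : Set Cantor, IsOpen O → O.Nonempty → ∃ z ∈ O, ∀ N ∈ 𝒩, z ∉ N)
    (hc : ℵ₀ < (𝔠 : Cardinal.{0}))
    (e : WW → Code) (o : WW → ℕ × Bool) :
    ∃ z : WW → Cantor, ∀ w, ((U (o w).1).Nonempty → z w ∈ U (o w).1) ∧
      ∀ v < w, ∀ u < w, (IsNowhereDense (fib U (e v) (z u)) → z w ∉ fib U (e v) (z u)) ∧
        z w ≠ fn U (e v) (z u) ∧ z w ≠ z u := by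
  classical
  let bad : (w : WW) → ((u : WW) → u < w → Cantor) → Set (Set Cantor) := fun w prev =>
    {N | IsNowhereDense N ∧ ∃ v, ∃ _ : v < w, ∃ u, ∃ hu : u < w,
      N = fib U (e v) (prev u hu) ∨ N = {fn U (e v) (prev u hu)} ∨ N = {prev u hu}}
  have hbad : ∀ w prev, #(bad w prev) < 𝔠 := by
    intro w prev
    let g : (Iio w × Iio w) × Fin 3 → Set Cantor := fun t =>
      if t.2 = 0 then fib U (e t.1.1) (prev t.1.2 t.1.2.2) else
      if t.2 = 1 then {fn U (e t.1.1) (prev t.1.2 t.1.2.2)} else {prev t.1.2 t.1.2.2}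
    have hsub : bad w prev ⊆ range g := by
      rintro N ⟨-, v, hv, u, hu, h | h | h⟩
      · exact ⟨((⟨v, hv⟩, ⟨u, hu⟩), 0), by simp [g, h]⟩
      · exact ⟨((⟨v, hv⟩, ⟨u, hu⟩), 1), by simp [g, h]⟩
      · exact ⟨((⟨v, hv⟩, ⟨u, hu⟩), 2), by simp [g, h]⟩
    refine (mk_le_mk_of_subset hsub).trans_lt (mk_range_le.trans_lt ?_)
    rw [mk_prod, mk_prod]
    simp only [lift_id]
    exact mul_lt_of_lt hc.le (mul_lt_of_lt hc.le (mk_Iio_WW w) (mk_Iio_WW w))
      (lt_of_le_of_lt (by simpa using (nat_lt_aleph0 3).le) hc)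
  have hpick : ∀ (w : WW) (prev : (u : WW) → u < w → Cantor), ∃ z : Cantor,
      ((U (o w).1).Nonempty → z ∈ U (o w).1) ∧ ∀ N ∈ bad w prev, z ∉ N := by
    intro w prev
    by_cases hne : (U (o w).1).Nonempty
    · obtain ⟨z, hz, hzN⟩ := hcov _ (hbad w prev) (fun N hN => hN.1) _ (hU1 _) hne
      exact ⟨z, fun _ => hz, hzN⟩
    · obtain ⟨z, -, hzN⟩ := hcov _ (hbad w prev) (fun N hN => hN.1) univ isOpen_univ
        univ_nonempty
      exact ⟨z, fun h => absurd h hne, hzN⟩
  choose pick hp1 hp2 using hpick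
  let z : WW → Cantor := WellFoundedLT.fix (motive := fun _ => Cantor) (fun w prev => pick w prev)
  have hz : ∀ w, z w = pick w fun u _ => z u := fun w => WellFoundedLT.fix_eq _ w
  have hsing := nowhereDense_singleton
  refine ⟨z, fun w => ?_⟩
  have h1 := hp1 w fun u _ => z u
  have h2 := hp2 w fun u _ => z u
  rw [← hz] at h1 h2
  refine ⟨h1, fun v hv u hu => ⟨fun hnd => ?_, fun h => ?_, fun h => ?_⟩⟩
  · exact h2 _ ⟨hnd, v, hv, u, hu, Or.inl rfl⟩
  · exact h2 _ ⟨hsing _, v, hv, u, hu, Or.inr (Or.inl rfl)⟩ h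
  · exact h2 _ ⟨hsing _, v, hv, u, hu, Or.inr (Or.inr rfl)⟩ h

end Pool.Agent.Q307.AV
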