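import Mathlib
import Pool.Agent.Q307.AV.Build

/-!
# Strongly avoiding pairs without totally avoiding pairs
-/

set_option autoImplicit false

namespace Pool.Agent.Q307.AV

open Cardinal Set TopologicalSpace Pool.Agent.W684

/-- `A` is `κ`-dense: it has exactly `κ` points in each nonempty open subset of the Cantor
space. -/
def KappaDense (κ : Cardinal.{0}) (A : Set Cantor) : Prop :=
  ∀ O : Set Cantor, IsOpen O → O.Nonempty → #(A ∩ O : Set Cantor) = κ

/-- `X` strongly avoids `Y`, where `κ` is the cardinality of `X`: each continuous function to `Y`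
from a subset `Z` of `X` of size `κ` has an image of size less than `κ`. -/
def StronglyAvoids (κ : Cardinal.{0}) (X Y : Set Cantor) : Prop :=
  ∀ Z ⊆ X, #Z = κ → ∀ f : Cantor → Cantor, ContinuousOn f Z → MapsTo f Z Y → #(f '' Z) < κ

/-- `X` totally avoids `Y`, where `κ` is the cardinality of `X`: each continuous function to `Y`
from a subset `Z` of `X` of size `κ` has a countable image. -/
def TotallyAvoids (κ : Cardinal.{0}) (X Y : Set Cantor) : Prop :=
  ∀ Z ⊆ X, #Z = κ → ∀ f : Cantor → Cantor, ContinuousOn f Z → MapsTo f Z Y → (f '' Z).Countable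

/-- If fewer than continuum many nowhere dense sets do not cover a nonempty open set then there are
dense sets which strongly avoid one another. -/
theorem exists_strong (hcov : ∀ 𝒩 : Set (Set Cantor), #𝒩 < 𝔠 → (∀ N ∈ 𝒩, IsNowhereDense N) →
      ∀ O : Set Cantor, IsOpen O → O.Nonempty → ∃ z ∈ O, ∀ N ∈ 𝒩, z ∉ N) :
    ∃ X Y : Set Cantor, KappaDense 𝔠 X ∧ KappaDense 𝔠 Y ∧ StronglyAvoids 𝔠 X Y ∧
      StronglyAvoids 𝔠 Y X := by
  classical
  have hc : ℵ₀ < (𝔠 : Cardinal.{0}) := aleph0_lt_continuum
  obtain ⟨U, hU1, hU2⟩ := exists_base Cantor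
  -- an enumeration of the codes and of the targets
  obtain ⟨E⟩ : Nonempty (WW ≃ Code) := Cardinal.eq.mp (by rw [mk_WW, mk_code])
  obtain ⟨O⟩ : Nonempty (WW ≃ WW × (ℕ × Bool)) := Cardinal.eq.mp (by
    rw [mk_prod]
    simp only [lift_id]
    rw [mk_WW]
    exact (mul_eq_left hc.le (mk_le_aleph0.trans hc.le) (mk_ne_zero _)).symm)
  obtain ⟨z, hz⟩ := exists_sequence hU1 hcov hc E fun w => (O w).2
  -- the sequence is injective
  have hinj : Function.Injective z := by
    intro w u h
    rcases lt_trichotomy w u with hlt | heq | hlt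
    · exact absurd h.symm ((hz u).2 w hlt w hlt).2.2
    · exact heq
    · exact absurd h ((hz w).2 u hlt u hlt).2.2
  let P : Bool → Set Cantor := fun b => z '' {w | (O w).2.2 = b}
  have hdense : ∀ b, KappaDense 𝔠 (P b) := by
    intro b G hG hGne
    apply le_antisymm
    · exact (mk_set_le _).trans mk_cantor.le
    · obtain ⟨x, hx⟩ := hGne
      obtain ⟨a, ha, haG⟩ := hU2 x G hG hx
      have hsub : z '' {w | (O w).2 = (a, b)} ⊆ P b ∩ G := by
        rintro _ ⟨w, hw, rfl⟩
        refine ⟨⟨w, ?_, rfl⟩, haG ?_⟩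
        · show (O w).2.2 = b
          rw [show (O w).2 = (a, b) from hw]
        · have h1 := (hz w).1
          simp only [show (O w).2 = (a, b) from hw] at h1
          exact h1 ⟨x, ha⟩
      refine le_trans ?_ (mk_le_mk_of_subset hsub)
      rw [mk_image_eq hinj]
      have hinj2 : Function.Injective fun v : WW =>
          (⟨O.symm (v, (a, b)), by simp⟩ : {w | (O w).2 = (a, b)}) := by
        intro v v' h
        have := congrArg Subtype.val h
        simpa using this
      have := mk_le_of_injective hinj2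
      rwa [mk_WW] at this
  -- the main estimate
  have hmain : ∀ (b b' : Bool), b ≠ b' → StronglyAvoids 𝔠 (P b) (P b') := by
    intro b b' hb Z hZ _ f hf hmaps
    obtain ⟨c, hcode⟩ := exists_code hU1 hU2 hf
    obtain ⟨β, rfl⟩ := E.surjective c
    have hsub : f '' Z ⊆ (z '' Iic β ∪ (fun w => fn U (E β) (z w)) '' Iic β) ∪
        {y | ¬ IsNowhereDense (fib U (E β) y)} := by
      rintro _ ⟨x, hx, rfl⟩
      obtain ⟨α, hα, rfl⟩ := hZ hx
      obtain ⟨γ, hγ, hγx⟩ := hmaps hx
      obtain ⟨hd, hfn⟩ := hcode _ hx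
      have hne : α ≠ γ := by
        rintro rfl
        exact hb (hα.symm.trans hγ)
      rcases le_or_gt α β with h1 | h1
      · exact Or.inl (Or.inr ⟨α, h1, hfn⟩)
      rcases le_or_gt γ β with h2 | h2
      · exact Or.inl (Or.inl ⟨γ, h2, hγx⟩)
      rcases lt_or_gt_of_ne hne with hlt | hlt
      · exfalso
        exact ((hz γ).2 β h2 α hlt).2.1 (by rw [hfn, hγx])
      · right
        intro hnd
        have e1 : fib U (E β) (f (z α)) = fib U (E β) (z γ) := by rw [hγx]
        rw [e1] at hnd
        exact ((hz α).2 β h1 γ hlt).1 hnd ⟨hd, by rw [hfn, hγx]⟩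
    have hIic : #(Iic β) < 𝔠 := by
      have : Iic β = insert β (Iio β) := by
        ext x; simp [le_iff_eq_or_lt]
      rw [this]
      refine mk_insert_le.trans_lt (add_lt_of_lt hc.le (mk_Iio_WW β) ?_)
      exact one_lt_aleph0.trans hc
    refine (mk_le_mk_of_subset hsub).trans_lt ((mk_union_le _ _).trans_lt
      (add_lt_of_lt hc.le ((mk_union_le _ _).trans_lt (add_lt_of_lt hc.le ?_ ?_)) ?_))
    · exact mk_image_le.trans_lt hIic
    · exact mk_image_le.trans_lt hIic
    · exact (countable_big hU1 hU2 (E β)).le_aleph0.trans_lt hc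
  exact ⟨P false, P true, hdense _, hdense _, hmain _ _ (by decide), hmain _ _ (by decide)⟩

/-- Under Martin's axiom, no dense set totally avoids another one. -/
theorem not_total (hMA : MartinAxiomAleph1) (hc : (ℵ₁ : Cardinal.{0}) ≤ 𝔠) (X Y : Set Cantor)
    (hX : KappaDense 𝔠 X) (hY : KappaDense 𝔠 Y) : ¬ TotallyAvoids 𝔠 X Y := by
  classical
  intro htot
  have hop : ∀ b : Bool, IsOpen {w : Cantor | w 0 = b} := fun b => by
    have h0 : {w : Cantor | w 0 = b} = (fun w : Cantor => w 0) ⁻¹' {b} := rfl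
    rw [h0]
    exact (isOpen_discrete {b}).preimage (continuous_apply 0)
  have hX0 := hX {w | w 0 = false} (hop _) ⟨fun _ => false, rfl⟩
  have hX1 := hX {w | w 0 = true} (hop _) ⟨fun _ => true, rfl⟩
  have hYU := hY univ isOpen_univ univ_nonempty
  rw [inter_univ] at hYU
  -- subsets of size `ℵ₁`
  have hOm : #(ℵ₁ : Cardinal.{0}).out = ℵ₁ := mk_out _
  obtain ⟨x⟩ : Nonempty ((ℵ₁ : Cardinal.{0}).out ↪ (X ∩ {w | w 0 = false} : Set Cantor)) := by
    rw [← Cardinal.le_def, hOm, hX0]; exact hc
  obtain ⟨y⟩ : Nonempty ((ℵ₁ : Cardinal.{0}).out ↪ Y) := by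
    rw [← Cardinal.le_def, hOm, hYU]; exact hc
  obtain ⟨c, hcont⟩ := sigma_continuous hMA hOm.le (fun i => (x i : Cantor))
    (fun i j h => x.injective (Subtype.ext h)) (fun i => (y i : Cantor))
  -- an uncountable piece
  obtain ⟨n, hn⟩ : ∃ n, ¬ {i | c i = n}.Countable := by
    by_contra hcon
    push Not at hcon
    have hU : (⋃ n, {i | c i = n}) = (univ : Set (ℵ₁ : Cardinal.{0}).out) :=
      eq_univ_of_forall fun i => mem_iUnion.mpr ⟨c i, rfl⟩
    have hcnt := countable_iUnion hcon
    rw [hU, countable_univ_iff, ← mk_le_aleph0_iff, hOm] at hcnt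
    exact absurd hcnt (not_le.mpr aleph0_lt_aleph_one)
  let J : Set (ℵ₁ : Cardinal.{0}).out := {i | c i = n}
  let A : Set Cantor := (fun i => (x i : Cantor)) '' J
  let B : Set Cantor := X ∩ {w | w 0 = true}
  obtain ⟨i0, hi0⟩ : J.Nonempty := by
    by_contra h
    rw [not_nonempty_iff_eq_empty] at h
    exact hn (by rw [show {i | c i = n} = J from rfl, h]; exact countable_empty)
  let f : Cantor → Cantor := fun w =>
    if h : ∃ i ∈ J, (x i : Cantor) = w then (y h.choose : Cantor) else (y i0 : Cantor)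
  have hf1 : ∀ i ∈ J, f (x i) = y i := by
    intro i hi
    have h : ∃ j ∈ J, (x j : Cantor) = x i := ⟨i, hi, rfl⟩
    have h1 : h.choose = i := x.injective (Subtype.ext h.choose_spec.2)
    simp only [f, dif_pos h, h1]
  have hf2 : ∀ w, w 0 = true → f w = y i0 := by
    intro w hw
    have h : ¬ ∃ j ∈ J, (x j : Cantor) = w := by
      rintro ⟨j, -, rfl⟩
      have := (x j).2.2
      rw [mem_setOf_eq, hw] at this
      exact absurd this (by decide)
    simp only [f, dif_neg h]
  have hAX : A ⊆ X := by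
    rintro _ ⟨i, -, rfl⟩
    exact (x i).2.1
  have hZ := htot (A ∪ B) (union_subset hAX inter_subset_left) (by
      apply le_antisymm
      · exact (mk_set_le _).trans mk_cantor.le
      · rw [← hX1]
        exact mk_le_mk_of_subset subset_union_right) f (by
      intro w hw
      rw [ContinuousWithinAt]
      rw [tendsto_nhds]
      intro W hW hfw
      rcases hw with ⟨i, hi, rfl⟩ | hw
      · simp only at hfw
        rw [mem_preimage.symm.trans Iff.rfl] at hfw
        have hyi : (y i : Cantor) ∈ W := by rw [← hf1 i hi]; exact hfw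
        obtain ⟨O, hO, hxO, hOW⟩ := hcont i W hW hyi
        have hnh : O ∩ {w : Cantor | w 0 = false} ∈ nhds ((x i : Cantor)) :=
          (hO.inter (hop false)).mem_nhds ⟨hxO, (x i).2.2⟩
        refine mem_nhdsWithin_iff_exists_mem_nhds_inter.mpr ⟨_, hnh, ?_⟩
        rintro v ⟨⟨hv1, hv2⟩, hv3⟩
        rcases hv3 with ⟨j, hj, rfl⟩ | hv3
        · show f (x j) ∈ W
          rw [hf1 j hj]
          exact hOW j (hj.trans hi.symm) hv1
        · exfalso
          have h1 : v 0 = false := hv2
          have h2 : v 0 = true := hv3.2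
          rw [h1] at h2
          exact absurd h2 (by decide)
      · have hnh : {w : Cantor | w 0 = true} ∈ nhds w := (hop true).mem_nhds hw.2
        refine mem_nhdsWithin_iff_exists_mem_nhds_inter.mpr ⟨_, hnh, ?_⟩
        rintro v ⟨hv, -⟩
        show f v ∈ W
        rw [hf2 v hv, ← hf2 w hw.2]
        exact hfw) (by
      rintro v (⟨i, hi, rfl⟩ | hv)
      · show f (x i) ∈ Y
        rw [hf1 i hi]
        exact (y i).2
      · rw [hf2 v hv.2]
        exact (y i0).2)
  -- the image is uncountable
  apply hn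
  have hinj : InjOn (fun i => f (x i)) J := by
    intro i hi j hj h
    simp only [hf1 i hi, hf1 j hj] at h
    exact y.injective (Subtype.ext h)
  refine countable_of_injective_of_countable_image hinj (hZ.mono ?_)
  rintro _ ⟨i, hi, rfl⟩
  exact ⟨x i, Or.inl ⟨i, hi, rfl⟩, rfl⟩

end Pool.Agent.Q307.AV
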